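import Pool.Agent.WAT.Stmts
import Pool.Agent.Helper85_AT3.LSB
import Pool.Agent.Helper96_PP.Trn
import Pool.Agent.Helper79_WRA.Tower
import Pool.Agent.Helper50_PP.Ffa

/-!
# Squad WAT, row ABR: the theorem for blocks
-/

open scoped BigOperators

noncomputable section

namespace Pool.Agent.PP.TV.H38

open Pool.Agent.Helper51_AWC Pool.Agent.Helper79_WRA Pool.Agent.PP Pool.Agent.PP.KF
open Pool.Agent.PP.K9 Pool.Agent.PP.K9.H97 Pool.Agent.PP.H75 Pool.Agent.PP.T3 Pool.Agent.PP.T2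
open Pool.Agent.PP.T5 Pool.Agent.PP.TB
open Pool.Agent.PP.T8 (Rv Fq Fr Qt3Stmt FqtStmt)

attribute [local instance] Ideal.Quotient.field

theorem uw_one {G : Type} [Group G] (V : Subgroup G) : Uw 1 V = V := by
  unfold Uw
  have h : (fun x : G => x ^ 1) '' (V : Set G) = V := by
    ext x
    simp
  rw [h, Subgroup.closure_eq]

/-- passage to a subgroup which contains the centraliser of `V` -/
theorem fq_sub {F G : Type} [Field F] [Group G] {X V : Subgroup G}
    (hVX : V ≤ X) (hCX : Subgroup.centralizer (V : Set G) ≤ X) {γ : G → F}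
    (hγ : ∀ x, x ∉ Subgroup.centralizer (V : Set G) → γ x = 0) :
    Fq V γ (V.subgroupOf X) (fun t : X => γ t) := by
  refine ⟨(Subgroup.subgroupOfEquivOfLe hVX).symm.toMonoidHom,
    (Subgroup.subgroupOfEquivOfLe hVX).symm.surjective, ?_⟩
  intro t' ht'
  rw [T3.H85.Tg_eq hVX hCX hγ] at ht'
  refine ⟨(t' : G), ht'.1, ?_⟩
  intro v w hvw
  apply Subtype.ext
  exact hvw

/-- the elements of `V` which commute with the inertial group, in a subgroup -/
theorem zf_sub {F G : Type} [Field F] [Group G] {X V : Subgroup G}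
    (hVX : V ≤ X) (hCX : Subgroup.centralizer (V : Set G) ≤ X) {γ : G → F}
    (hγ : ∀ x, x ∉ Subgroup.centralizer (V : Set G) → γ x = 0) {z : G} (hz : z ∈ Zf V γ)
    (hzX : z ∈ X) : (⟨z, hzX⟩ : X) ∈ Zf (V.subgroupOf X) (fun t : X => γ t) := by
  refine ⟨hz.1, ?_⟩
  rw [T3.H85.Tg_eq hVX hCX hγ]
  apply Subgroup.mem_centralizer_iff.2
  intro t ht
  exact Subtype.ext (Subgroup.mem_centralizer_iff.1 hz.2 (t : G) ht.1)

/-- a central `ℓ`-element -/
theorem core_ne {ℓ : ℕ} {A : Type} [Group A] [Finite A] {V : Subgroup A} (hV : IsPGroup ℓ V)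
    {z : A} (hz : z ∈ V) (h1 : z ≠ 1) (hc : ∀ a : A, a * z = z * a) : opCore ℓ A ≠ ⊥ := by
  intro h0
  have hn : (Subgroup.zpowers z).Normal := by
    constructor
    intro n hn g
    obtain ⟨k, rfl⟩ := Subgroup.mem_zpowers_iff.1 hn
    have h2 : Commute g z := hc g
    have h3 : Commute g (z ^ k) := h2.zpow_right k
    rw [h3.eq, mul_inv_cancel_right]
    exact hn
  have hp : IsPGroup ℓ (Subgroup.zpowers z) :=
    hV.to_le (by rw [Subgroup.zpowers_le]; exact hz)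
  have hle : Subgroup.zpowers z ≤ opCore ℓ A := le_sSup ⟨hn, hp⟩
  rw [h0] at hle
  exact h1 (Subgroup.mem_bot.1 (hle (Subgroup.mem_zpowers z)))

/-- ABR -/
theorem abr (hW : WatStmt) (hT : TsnStmt) (hN : NlbStmt) (hCl : ClvStmt) (hR : Rb2Stmt)
    (hP : CpvStmt) (h8 : T8.T8aStmt) (hFs : T2.FstStmt) (hLoc : T3.LocStmt)
    (hLsb : T3.LsbStmt) (hIx : K9.InxStmt) : AbrStmt := by
  intro ℓ hℓ M _ hM
  have hF : GoodF ℓ (FF M) := H50.fld ℓ Fact.out M hM
  suffices hmain : ∀ n : ℕ, ∀ (G : Type) [Group G] [Finite G], Nat.card G = n →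
      ∀ (e : G → FF M) (V : Subgroup G) (γ : G → FF M), Ld ℓ e V γ → V ≠ ⊥ →
      (RK2.Rk2 (Vc V γ) ∨ (Fc V γ ∧ ix V γ ≤ ℓ)) → YY ℓ ⊤ e = 0 by
    intro G _ _ e V γ h1 h2 h3
    exact hmain _ G rfl e V γ h1 h2 h3
  intro n
  induction n using Nat.strong_induction_on with
  | _ n ih =>
  intro G _ _ hn e V γ hL hVb hcond
  by_cases hO : opCore ℓ G = ⊥
  swap
  · exact H96.yzr ℓ (FF M) hℓ.out G ⊤ inferInstance (opCore_top_ne rfl hO) e
  have hixg : ∀ (X : Type) [Group X] [Finite X] (e' : X → FF M) (V' : Subgroup X)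
      (γ' : X → FF M), Ld ℓ e' V' γ' → ¬ ℓ ∣ ix V' γ' := by
    intro X _ _ e' V' γ' h
    exact hIx ℓ M hM X e' h.blk V' h.tp h.ab γ' h.gam.supp h.gam.blk h.und
  have hix := hixg G e V γ hL
  have hcl : ∀ (X A : Type) [Group X] [Finite X] [Group A] [Finite A] (e' : X → FF M)
      (V' : Subgroup X) (γ' : X → FF M) (f : A → FF M) (V'' : Subgroup A) (γ'' : A → FF M),
      Ld ℓ e' V' γ' → Ld ℓ f V'' γ'' → Fq V' γ' V'' γ'' →
      (RK2.Rk2 (Vc V' γ') ∨ (Fc V' γ' ∧ ix V' γ' ≤ ℓ)) →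
      (RK2.Rk2 (Vc V'' γ'') ∨ (Fc V'' γ'' ∧ ix V'' γ'' ≤ ℓ)) := by
    intro X A _ _ _ _ e' V' γ' f V'' γ'' h1 h2 h3 h4
    obtain ⟨c1, c2, c3⟩ := hCl ℓ (FF M) hF X A e' V' γ' f V'' γ'' h1 h2
      (hixg X e' V' γ' h1) h3
    rcases h4 with h4 | ⟨h4, h5⟩
    · exact Or.inl (c1 h4)
    · exact Or.inr ⟨c2 h4, c3.trans h5⟩
  have hIu : ∀ (X : Type) [Group X] [Finite X], Nat.card X ≤ n → ∀ (e' : X → FF M)
      (V' : Subgroup X) (γ' : X → FF M), Ld ℓ e' V' γ' →
      (RK2.Rk2 (Vc V' γ') ∨ (Fc V' γ' ∧ ix V' γ' ≤ ℓ)) →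
      Iu M ℓ 1 (Nat.card X) V' γ' := by
    intro X _ _ hX e' V' γ' h1 h2 A _ _ hA f V'' γ'' h3 h4 h5
    rw [uw_one] at h4
    exact ih (Nat.card A) (lt_of_lt_of_le hA hX) A rfl f V'' γ'' h3 h4
      (hcl X A e' V' γ' f V'' γ'' h1 h3 h5 h2)
  by_cases hZ : Zf V γ = ⊥
  · -- the free case
    obtain ⟨p1, -, p3⟩ := hP ℓ (FF M) hF G e V γ hL hix
    have hVc : Vc V γ = V := by
      refine le_antisymm p1 ?_
      intro v hv
      obtain ⟨z, hz, w, hw, rfl⟩ := p3 v hv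
      rw [hZ, Subgroup.mem_bot] at hz
      rw [hz, one_mul]
      exact hw
    rw [hVc] at hcond
    rcases hcond with hc | ⟨hfc, hle⟩
    · exact hR ℓ M hM G e V γ hL hVb hc
    · have hfr : Fr V γ := by
        intro t ht v hv
        exact hfc t ht v (by rw [hVc]; exact hv)
      have hℓ2 : ℓ ≠ 2 := by
        intro h2
        have hi1 : ix V γ = 1 := by
          have h3 : ix V γ ≠ 0 := fun h => hix (by rw [h]; exact dvd_zero ℓ)
          have h4 : ix V γ ≠ 2 := fun h => hix (by rw [h, h2])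
          omega
        have h5 : Tg V γ ≤ Subgroup.centralizer (V : Set G) := Subgroup.relIndex_eq_one.1 hi1
        apply hVb
        rw [← le_bot_iff, ← hZ]
        intro v hv
        refine ⟨hv, Subgroup.mem_centralizer_iff.2 ?_⟩
        intro t ht
        exact (Subgroup.mem_centralizer_iff.1 (h5 ht) v hv).symm
      obtain ⟨k, hk⟩ := IsPGroup.iff_card.1 hL.tp.pg
      have h6 : Monoid.exponent V ∣ ℓ ^ k := by
        rw [← hk]
        exact Group.exponent_dvd_nat_card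
      obtain ⟨a, -, ha⟩ := (Nat.dvd_prime_pow hℓ.out).1 h6
      have ha0 : 0 < a := by
        rcases Nat.eq_zero_or_pos a with h0 | h0
        · exfalso
          rw [h0, pow_zero, Monoid.exp_eq_one_iff] at ha
          apply hVb
          rw [Subgroup.eq_bot_iff_forall]
          intro x hx
          exact congrArg Subtype.val (ha.elim ⟨x, hx⟩ 1)
        · exact h0
      exact h8 ℓ M hM hℓ2 a G e V γ hL (Or.inr (Or.inr ⟨ha0, ha, hfr,
        hle.trans (Nat.le_self_pow ha0.ne' ℓ)⟩))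
  · -- an element of `V` which commutes with the inertial group
    obtain ⟨z, hz, hz1⟩ : ∃ z ∈ Zf V γ, z ≠ 1 := by
      by_contra hcon
      push Not at hcon
      exact hZ ((Subgroup.eq_bot_iff_forall _).2 hcon)
    have hzV : z ∈ V := hz.1
    have hne : Cu z ≠ ⊤ := by
      intro htop
      refine core_ne hL.tp.pg hzV hz1 ?_ hO
      intro a
      have ha : a ∈ Cu z := by rw [htop]; exact Subgroup.mem_top a
      exact Subgroup.mem_centralizer_singleton_iff.1 ha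
    have hlt : Nat.card (Cu z) < n := by
      rw [← hn]
      exact (Subgroup.card_le_card_group _).lt_of_ne
        (fun h => hne (Subgroup.eq_top_of_card_eq _ h))
    -- `G`
    obtain ⟨f, hf⟩ := hFs ℓ M hM G e V γ hL 1
    rw [uw_one] at hf
    have h1 := hT ℓ M hM G e V γ hL 1 V (uw_one V).symm hVb f hf
      (hIu G hn.le e V γ hL hcond)
    obtain ⟨⟨b, hb⟩, -⟩ := hLoc ℓ (FF M) hF G e V γ hL z hzV
    have h2 := hW ℓ M hM G e V γ hL z hz b hb
    -- `N(V)`
    have hVX : V ≤ Subgroup.normalizer (V : Set G) := Subgroup.le_normalizer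
    have hCX := T3.H85.cent_le_norm V
    have hzX := zf_sub hVX hCX hL.gam.supp hz (hVX hzV)
    obtain ⟨⟨c, hc⟩, -⟩ := hLoc ℓ (FF M) hF _ _ _ _ hf.ld
      (⟨z, hVX hzV⟩ : Subgroup.normalizer (V : Set G)) hzX.1
    have h3 := hW ℓ M hM _ _ _ _ hf.ld _ hzX c hc
    -- `C(z)`
    have hVC : V ≤ Cu z := fun v hv => Subgroup.mem_centralizer_singleton_iff.2
      (hL.ab v hv z hzV)
    have hCC : Subgroup.centralizer (V : Set G) ≤ Cu z := fun g hg =>
      Subgroup.mem_centralizer_singleton_iff.2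
        (Subgroup.mem_centralizer_iff.1 hg z hzV).symm
    have hLC := (hLsb ℓ M hM G e V γ hL z hzV b hb).1
    have hcondC := hcl G (Cu z) e V γ _ _ _ hL hLC (fq_sub hVC hCC hL.gam.supp) hcond
    obtain ⟨f', hf'⟩ := hFs ℓ M hM (Cu z) _ _ _ hLC 1
    rw [uw_one] at hf'
    have hzC : (⟨z, hVC hzV⟩ : Cu z) ∈ V.subgroupOf (Cu z) := hzV
    have hz1C : (⟨z, hVC hzV⟩ : Cu z) ≠ 1 := fun h => hz1 (congrArg Subtype.val h)
    have hVCb : V.subgroupOf (Cu z) ≠ ⊥ := by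
      intro h
      rw [h, Subgroup.mem_bot] at hzC
      exact hz1C hzC
    have h4 := hT ℓ M hM (Cu z) _ _ _ hLC 1 _ (uw_one _).symm hVCb f' hf'
      (hIu (Cu z) hlt.le _ _ _ hLC hcondC)
    have hOC : opCore ℓ (Cu z) ≠ ⊥ := by
      refine core_ne hLC.tp.pg hzC hz1C ?_
      intro a
      exact Subtype.ext (Subgroup.mem_centralizer_singleton_iff.1 a.2)
    rw [H96.yzr ℓ (FF M) hℓ.out (Cu z) ⊤ inferInstance (opCore_top_ne rfl hOC) _] at h4
    have h5 := hN ℓ M hM G e V γ hL z hzV b hb V rfl f hf _ rfl c hc _ rfl f' hf'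
    have h6 : (Nat.card (Cu z) : ℤ) ≠ 0 := by exact_mod_cast Nat.card_pos.ne'
    have h7 : (ln (fun t : Cu z => b t) : ℤ) -
        (ln (fun t : Subgroup.normalizer ((V.subgroupOf (Cu z) : Subgroup (Cu z)) : Set (Cu z)) =>
          f' t) : ℤ) = 0 := by
      rcases mul_eq_zero.1 h4.symm with h | h
      · exact absurd h h6
      · exact h
    rw [h1]
    have h8' : (ln e : ℤ) - (ln (fun t : Subgroup.normalizer (V : Set G) => f t) : ℤ) = 0 := by
      rw [← h2, ← h3, h5]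
      exact h7
    rw [h8', mul_zero]

end Pool.Agent.PP.TV.H38
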