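import Pool.Agent.WAT.Stmts
import Pool.Agent.Helper85_AT3.LSB
import Pool.Agent.Helper97_PP.Kri

/-!
# Squad WAT, row DBL: local blocks of local blocks
-/

open scoped BigOperators

noncomputable section

namespace Pool.Agent.PP.TV.H38

open Pool.Agent.Helper51_AWC Pool.Agent.Helper79_WRA Pool.Agent.PP Pool.Agent.PP.KF
open Pool.Agent.PP.K9 Pool.Agent.PP.K9.H97 Pool.Agent.PP.H75 Pool.Agent.PP.T3 Pool.Agent.PP.T2
open Pool.Agent.PP.T5 Pool.Agent.PP.TB
open Pool.Agent.PP.T8 (Rv Fq Fr Qt3Stmt FqtStmt)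

attribute [local instance] Ideal.Quotient.field

section uni

variable {ℓ : ℕ} {F G : Type} [Field F] [Group G] [Finite G]

omit [Finite G] in
/-- `ln` is invariant under isomorphisms -/
theorem ln_equiv {A B : Type} [Group A] [Group B] (φ : A ≃* B) (b : B → F) :
    ln (fun t : A => b (φ t)) = ln b := by
  unfold ln
  exact PP.H97.ncard_comp φ b

/-- two blocks of a subgroup over the same block of the centraliser of `V` are equal -/
theorem bx_uni (hF : GoodF ℓ F) {V X : Subgroup G} (hV : IsPGroup ℓ V) (hVX : V ≤ X)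
    {γ : G → F} (hγ : γ ≠ 0) {β β' : G → F} (hβ : Bx X β) (hβ' : Bx X β')
    (h : mulF (br V β) γ = γ) (h' : mulF (br V β') γ = γ) : β = β' := by
  rcases hβ.dich hβ' with h1 | h1
  · exact h1
  · exfalso
    apply hγ
    have hi : ∀ {b : G → F}, Bx X b → H66.Inv V b := by
      intro b hb p hp t
      have h2 := hb.ix.inv (hVX hp)
      exact (cj_eq_iff p b).1 h2 t
    have h3 := H66.br_mulF hF hV (hi hβ) (hi hβ')
    rw [h1] at h3
    have h4 : br V (0 : G → F) = 0 := by
      funext x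
      by_cases hx : x ∈ Subgroup.centralizer (V : Set G)
      · rw [H66.br_of_mem hx]
      · rw [H66.br_of_not_mem hx]
        rfl
    rw [h4] at h3
    rw [← h, ← h', ← H20.mulF_assoc, ← h3, H20.zero_mulF]

end uni

section dbl

variable {F G : Type} [Field F] [Group G] [Finite G]

omit [Finite G] in
/-- the centraliser of `v` in the centraliser of `u` -/
def dequiv (u : G) (v : Cu u) :
    (Cu u ⊓ Cu (v : G) : Subgroup G) ≃* (Cu v : Subgroup (Cu u)) where
  toFun t := ⟨⟨(t : G), t.2.1⟩,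
    Subgroup.mem_centralizer_singleton_iff.2
      (Subtype.ext (Subgroup.mem_centralizer_singleton_iff.1 t.2.2))⟩
  invFun t := ⟨((t : Cu u) : G), (t : Cu u).2,
    Subgroup.mem_centralizer_singleton_iff.2
      (congrArg Subtype.val (Subgroup.mem_centralizer_singleton_iff.1 t.2))⟩
  left_inv _ := rfl
  right_inv _ := rfl
  map_mul' _ _ := rfl

theorem key {V : Subgroup G} {γ : G → F} (hab : ∀ a ∈ V, ∀ b ∈ V, a * b = b * a)
    (hγ : Bx (Subgroup.centralizer (V : Set G)) γ) {u : G} (hu : u ∈ V) (v : Cu u)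
    {c : Cu u → F} (hc : Bx (Cu v) c)
    (hg : mulF (br (V.subgroupOf (Cu u)) c) (fun t : Cu u => γ t) = fun t : Cu u => γ t) :
    Bx (Cu u ⊓ Cu (v : G)) (H75.ext0 (Cu u) c) ∧
      mulF (br V (H75.ext0 (Cu u) c)) γ = γ ∧
      ln (fun t : Cu v => c t) =
        ln (fun t : (Cu u ⊓ Cu (v : G) : Subgroup G) => H75.ext0 (Cu u) c t) := by
  have hVX : V ≤ Cu u := fun v hv => Subgroup.mem_centralizer_singleton_iff.2 (hab v hv u hu)
  have hCX : Subgroup.centralizer (V : Set G) ≤ Cu u := fun g hg =>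
    Subgroup.mem_centralizer_singleton_iff.2 (Subgroup.mem_centralizer_iff.1 hg u hu).symm
  have he : (fun t : (Cu u ⊓ Cu (v : G) : Subgroup G) => H75.ext0 (Cu u) c t) =
      fun t => (fun s : Cu v => c s) (dequiv u v t) := by
    funext t
    exact H75.ext0_apply (Cu u) c ⟨(t : G), t.2.1⟩
  refine ⟨⟨?_, ?_⟩, ?_, ?_⟩
  · intro x hx
    by_cases hxu : x ∈ Cu u
    · have h1 := H75.ext0_apply (Cu u) c ⟨x, hxu⟩
      rw [h1]
      apply hc.supp
      intro h2
      apply hx
      exact ⟨hxu, Subgroup.mem_centralizer_singleton_iff.2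
        (congrArg Subtype.val (Subgroup.mem_centralizer_singleton_iff.1 h2))⟩
    · exact H75.ext0_supp (Cu u) c x hxu
  · rw [he]
    exact H20.IsBlk_equiv (dequiv u v) hc.blk
  · apply eq_of_res (N := Cu u)
    · apply H75.mulF_supp (Cu u)
      · intro x hx
        exact H66.br_of_not_mem (fun h => hx (hCX h))
      · intro x hx
        exact hγ.supp x (fun h => hx (hCX h))
    · intro x hx
      exact hγ.supp x (fun h => hx (hCX h))
    · rw [H75.mulF_res (Cu u) γ (fun x hx => H66.br_of_not_mem (fun h => hx (hCX h)))]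
      rw [← hg]
      have h1 : (fun t : Cu u => br V (H75.ext0 (Cu u) c) t) = br (V.subgroupOf (Cu u)) c := by
        funext t
        by_cases ht : (t : G) ∈ Subgroup.centralizer (V : Set G)
        · rw [H66.br_of_mem ht, H66.br_of_mem ((cent_sub hVX t).2 ht), H75.ext0_apply]
        · rw [H66.br_of_not_mem ht, H66.br_of_not_mem (fun h => ht ((cent_sub hVX t).1 h))]
      rw [h1, hg, hg]
  · rw [he]
    exact (ln_equiv (dequiv u v) (fun s : Cu v => c s)).symm

end dbl

/-- DBL -/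
theorem dbl : DblStmt := by
  intro ℓ _ M _ hM G _ _ e V γ hL u hu u' hu' b b' hb hb' v v' hv hv' hC c c' hc hc'
  have hF : GoodF ℓ (FF M) := H50.fld ℓ Fact.out M hM
  obtain ⟨h1, h2, h3⟩ := key hL.ab hL.gam hu v hc.blk hc.gam
  obtain ⟨h1', h2', h3'⟩ := key hL.ab hL.gam hu' v' hc'.blk hc'.gam
  rw [h3, h3']
  have hVX : V ≤ Cu u ⊓ Cu (v : G) := fun x hx =>
    ⟨Subgroup.mem_centralizer_singleton_iff.2 (hL.ab x hx u hu),
      Subgroup.mem_centralizer_singleton_iff.2 (hL.ab x hx v hv)⟩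
  generalize hX : (Cu u ⊓ Cu (v : G) : Subgroup G) = X at *
  generalize hX' : (Cu u' ⊓ Cu (v' : G) : Subgroup G) = X' at *
  subst hC
  have h4 := bx_uni hF hL.tp.pg hVX hL.gam.ne h1 h1' h2 h2'
  rw [h4]

end Pool.Agent.PP.TV.H38
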